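import Pool.Agent.Helper88.TU.Size
import Pool.Agent.Helper88.CG.VP
import Pool.Agent.Helper85.RR.S1
import Pool.Agent.Helper74.PP.TL

/-!
# MP_69be96_nt, project TU, packet RC: the number of rough points under the weight
-/

set_option autoImplicit false

open Finset Filter Topology

open scoped Classical

namespace Pool.Agent.Helper94.TU

open Pool.Agent.Helper88.TU
open Pool.Agent.Helper88.PP (pr Rg om Sf SS uu vv ee LA VV QQ cost)
open Pool.Agent.Helper88.RR (gg ab TB WB nz wb DB VM GB)
open Pool.Agent.Helper88.GM (NI XI In)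
open Pool.Agent.Helper88.CG (qE mE Wt Dt)
open Pool.Agent.Helper85.RR (ab_nonneg mem_TB card_TB prod_TB WB_eq DB_eq one_le_DB gg_nonneg
  nz_le wb_nonneg)

/-- one more rough point costs at least a factor `om` -/
theorem gg_succ_le {y z k : ℕ} (hk : k + 1 ≤ y) : gg y z (k + 1) ≤ om y z * gg y z k := by
  unfold gg om
  rw [← Finset.prod_mul_distrib]
  refine Finset.prod_le_prod (fun p hp => ?_) fun p hp => ?_
  · have h1 : y < p := (Finset.mem_Ioc.1 (Finset.mem_filter.1 hp).1).1
    have h2 : (0 : ℝ) < p := by exact_mod_cast (Nat.zero_le y).trans_lt h1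
    have h3 : ((k + 1 : ℕ) : ℝ) / p ≤ 1 := by
      rw [div_le_one h2]
      exact_mod_cast (hk.trans h1.le)
    linarith
  · have h1 : y < p := (Finset.mem_Ioc.1 (Finset.mem_filter.1 hp).1).1
    have h2 : (0 : ℝ) < p := by exact_mod_cast (Nat.zero_le y).trans_lt h1
    have h3 : (1 - 1 / (p : ℝ)) * (1 - (k : ℝ) / p) =
        1 - ((k + 1 : ℕ) : ℝ) / p + (k : ℝ) / (p * p) := by
      push_cast
      field_simp
      ring
    rw [h3]
    have h4 : 0 ≤ (k : ℝ) / (p * p) := by positivity
    linarith

/-- the label function with the roughness condition at `j` added -/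
noncomputable def rr {P : Finset ℕ} (j : P) (r : P → ℕ) (i : P) : ℕ :=
  if i = j ∧ r i = 0 then 1 else r i

/-- the coefficient of the label function `s` -/
noncomputable def co {P : Finset ℕ} (m q z : ℕ) (j : P) (s : P → ℕ) : ℝ :=
  ∏ i, (if i = j then (if s i = 1 then 1 else - ab m q z (s i)) else
    (if s i = 0 then 1 else - ab m q z (s i)))

theorem LA_ne_one {z m m' r : ℕ} (hm : 1 ≤ m) (hz : 2 ≤ z) (hr : r ∈ LA z m m') : r ≠ 1 := by
  have h1 : z ^ m ≤ r := (Finset.mem_filter.1 hr).2
  have h2 : 1 < z ^ m := Nat.one_lt_pow (by omega) (by omega)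
  omega

theorem rr_ne {P : Finset ℕ} {i j : P} (h : i ≠ j) (r : P → ℕ) : rr j r i = r i := by
  unfold rr
  rw [if_neg (fun h1 => h h1.1)]

theorem rr_zero {P : Finset ℕ} {j : P} {r : P → ℕ} (h : r j = 0) : rr j r j = 1 := by
  unfold rr
  rw [if_pos ⟨rfl, h⟩]

theorem rr_pos {P : Finset ℕ} {j : P} {r : P → ℕ} (h : r j ≠ 0) : rr j r j = r j := by
  unfold rr
  rw [if_neg (fun h1 => h h1.2)]

theorem rr_eq_one {P : Finset ℕ} {j : P} {r : P → ℕ} (h1 : r j ≠ 1) :
    rr j r j = 1 ↔ r j = 0 := by
  by_cases h : r j = 0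
  · simp [rr_zero h, h]
  · simp [rr_pos h, h, h1]

theorem co_rr {P : Finset ℕ} (m q z : ℕ) (j : P) (r : P → ℕ) (h1 : r j ≠ 1) :
    co m q z j (rr j r) = ∏ i : P, (if r i = 0 then 1 else - ab m q z (r i)) := by
  unfold co
  refine Finset.prod_congr rfl fun i _ => ?_
  by_cases hij : i = j
  · subst hij
    rw [if_pos rfl]
    by_cases h : r i = 0
    · rw [if_pos (rr_zero h), if_pos h]
    · rw [rr_pos h, if_neg h1, if_neg h]
  · rw [if_neg hij, rr_ne hij]

theorem vv_rr {P : Finset ℕ} (y z n : ℕ) (j : P) (r : P → ℕ) :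
    ∏ i, vv y z (rr j r i) (n + (i : ℕ)) =
      (if Rg y z (n + (j : ℕ)) then 1 else 0) * ∏ i, vv y z (r i) (n + (i : ℕ)) := by
  rw [← Finset.mul_prod_erase univ _ (Finset.mem_univ j),
    ← Finset.mul_prod_erase univ (fun i : P => vv y z (r i) (n + (i : ℕ))) (Finset.mem_univ j),
    ← mul_assoc]
  congr 1
  · by_cases h : r j = 0
    · rw [rr_zero h, h]
      simp [vv, uu]
    · rw [rr_pos h]
      unfold vv
      rw [if_neg h]
      split_ifs <;> simp
  · refine Finset.prod_congr rfl fun i hi => ?_
    rw [rr_ne (Finset.ne_of_mem_erase hi)]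

theorem tot_rr {P : Finset ℕ} (j : P) (r : P → ℕ) :
    ∏ i, (if rr j r i = 0 then 1 else (Nat.totient (rr j r i) : ℝ)) =
      ∏ i, (if r i = 0 then 1 else (Nat.totient (r i) : ℝ)) := by
  refine Finset.prod_congr rfl fun i _ => ?_
  by_cases hij : i = j
  · subst hij
    by_cases h : r i = 0
    · rw [rr_zero h, h]
      simp
    · rw [rr_pos h]
  · rw [rr_ne hij]

theorem max_rr {P : Finset ℕ} (j : P) (r : P → ℕ) :
    ∏ i, max 1 (rr j r i) = ∏ i, max 1 (r i) := by
  refine Finset.prod_congr rfl fun i _ => ?_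
  by_cases hij : i = j
  · subst hij
    by_cases h : r i = 0
    · rw [rr_zero h, h]
      simp
    · rw [rr_pos h]
  · rw [rr_ne hij]

theorem nz_rr {P : Finset ℕ} (j : P) (r : P → ℕ) :
    nz (rr j r) = nz r + (if r j = 0 then 1 else 0) := by
  unfold nz
  rw [Finset.card_filter, Finset.card_filter,
    ← Finset.add_sum_erase univ _ (Finset.mem_univ j),
    ← Finset.add_sum_erase univ (fun i => if r i ≠ 0 then 1 else 0) (Finset.mem_univ j)]
  have h1 : ∑ i ∈ univ.erase j, (if rr j r i ≠ 0 then 1 else 0) =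
      ∑ i ∈ univ.erase j, (if r i ≠ 0 then 1 else 0) := by
    refine Finset.sum_congr rfl fun i hi => ?_
    rw [rr_ne (Finset.ne_of_mem_erase hi)]
  rw [h1]
  by_cases h : r j = 0
  · rw [rr_zero h]
    simp [h, add_comm]
  · rw [rr_pos h]
    simp [h]

theorem rr_injOn {P : Finset ℕ} (j : P) {S : Finset (P → ℕ)} (hS : ∀ r ∈ S, r j ≠ 1) :
    Set.InjOn (rr j) (S : Set (P → ℕ)) := by
  intro r hr s hs h
  funext i
  by_cases hij : i = j
  · subst hij
    have h1 : rr i r i = rr i s i := congrFun h i
    by_cases h2 : r i = 0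
    · rw [rr_zero h2] at h1
      rw [h2]
      exact ((rr_eq_one (hS s hs)).1 h1.symm).symm
    · rw [rr_pos h2] at h1
      by_cases h3 : s i = 0
      · rw [rr_zero h3] at h1
        exact absurd h1 (hS r hr)
      · rw [rr_pos h3] at h1
        exact h1
  · have h1 : rr j r i = rr j s i := congrFun h i
    rwa [rr_ne hij, rr_ne hij] at h1

/-- Packet `RC`. -/
theorem rc (h : StmtTG) : StmtRC := by
  obtain ⟨c, hc, E1, hTG⟩ := h
  obtain ⟨E2, hsz⟩ := size
  obtain ⟨c', hc', E3, hVP⟩ := Pool.Agent.Helper88.CG.vp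
  refine ⟨2, by norm_num, max (max E1 E2) (max E3 1), ?_⟩
  intro E z x y hE hS b hb P hP hPo
  have hE1 : E1 ≤ E := ((le_max_left _ _).trans (le_max_left _ _)).trans hE
  have hE2 : E2 ≤ E := ((le_max_right _ _).trans (le_max_left _ _)).trans hE
  have hE3 : E3 ≤ E := ((le_max_left _ _).trans (le_max_right _ _)).trans hE
  obtain ⟨a1, a2, a3, a4, a5, a6, a7, a8, a9, a10, a11, a12, a13, a14⟩ := hsz E z x y hE2 hS
  obtain ⟨v1, v2, v3, v4, v5, v6⟩ := hVP E hE3
  obtain ⟨v7, -⟩ := v6 z (by omega)
  have hz2 : 2 ≤ z := by omega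
  have hE1' : 1 ≤ E := ((le_max_right _ _).trans (le_max_right _ _)).trans hE
  have hPy : P.card ≤ y := by
    refine (Finset.card_le_card hP).trans ?_
    simp
  have hq1 : 1 ≤ qE E := Nat.one_le_two_pow
  set m := mE E with hm
  set q := qE E with hq
  set M := E / 16 with hM
  have hqm : q * m ≤ M := by
    refine le_trans ?_ v2
    apply Nat.mul_le_mul_right
    exact Nat.le_self_pow (by norm_num) q
  have hK : (M / m + 2) ^ 3 ≤ E := by
    refine le_trans ?_ v4
    calc (M / m + 2) ^ 3 ≤ (M / m + 2) ^ 6 :=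
          Nat.pow_le_pow_right (Nat.succ_pos _) (by norm_num)
      _ ≤ (2 * (M / m + 2)) ^ 6 := Nat.pow_le_pow_left (Nat.le_mul_of_pos_left _ two_pos) 6
  have hXI : 0 ≤ XI (x / 32) x (QQ x) := by
    unfold XI
    positivity
  have hom0 : 0 ≤ om y z := by
    unfold om
    refine Finset.prod_nonneg fun p hp => ?_
    have h1 : y < p := (Finset.mem_Ioc.1 (Finset.mem_filter.1 hp).1).1
    have h2 : (0 : ℝ) < p := by exact_mod_cast (Nat.zero_le y).trans_lt h1
    have h3 : 1 / (p : ℝ) ≤ 1 := by
      rw [div_le_one h2]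
      exact_mod_cast (by omega : 1 ≤ p)
    linarith
  have hPo2 : (P.card : ℝ) * om y z ≤ (E : ℝ) ^ 2 := by
    have : 0 ≤ (E : ℝ) ^ 2 := by positivity
    linarith
  have hDB1 : 1 ≤ DB m q M z y P := one_le_DB m q M z y hPy
  have hIn : In x (x / 32) x (QQ x) b := ⟨dvd_rfl, hb, by omega⟩
  have hex : Real.exp (-(c * E)) ≤ 1 := by
    apply Real.exp_le_one_iff.2
    have : 0 ≤ c * E := by positivity
    linarith
  have hne1 : ∀ j : P, ∀ r ∈ TB m q M z P, r j ≠ 1 := by
    intro j r hr
    rcases (mem_TB hr).1 j with h | h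
    · omega
    · exact LA_ne_one v1 hz2 h
  -- the bound for one point
  have key : ∀ j : P, ∑ n ∈ NI (x / 32) x (QQ x) b,
      (if Rg y z (n + (j : ℕ)) then 1 else 0) * WB m q M z y P n ^ 2 ≤
      XI (x / 32) x (QQ x) * (∑ r ∈ TB m q M z P,
        (om y z + (if r j = 0 then 0 else 1)) * wb m q y z r) +
        om y z * XI (x / 32) x (QQ x) := by
    intro j
    have hres := hTG E z x y hE1 hS (x / 32) x (QQ x) b hIn m q (M / m + 2) (E / 16) v1 hqm v7
      hK (by omega) le_rfl P hP hPo2 ((TB m q M z P).image (rr j)) (co m q z j) ∅ {j}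
      (by simp) (by simp) (by simp) ?_ ?_ ?_ ?_ ?_ ?_
    · have e1 : ∀ n, ∑ r ∈ (TB m q M z P).image (rr j),
          co m q z j r * ∏ i, vv y z (r i) (n + (i : ℕ)) =
          (if Rg y z (n + (j : ℕ)) then 1 else 0) * WB m q M z y P n := by
        intro n
        rw [Finset.sum_image (rr_injOn j (hne1 j)), WB_eq, Finset.mul_sum]
        refine Finset.sum_congr rfl fun r hr => ?_
        rw [co_rr m q z j r (hne1 j r hr), vv_rr]
        ring
      have e2 : ∑ r ∈ (TB m q M z P).image (rr j), co m q z j r ^ 2 *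
          (gg y z (nz r) * ∏ i, (if r i = 0 then 1 else (Nat.totient (r i) : ℝ))) ≤
          ∑ r ∈ TB m q M z P, (om y z + (if r j = 0 then 0 else 1)) * wb m q y z r := by
        rw [Finset.sum_image (rr_injOn j (hne1 j))]
        refine Finset.sum_le_sum fun r hr => ?_
        rw [co_rr m q z j r (hne1 j r hr), tot_rr, nz_rr]
        have e3 : wb m q y z r = (∏ i : P, (if r i = 0 then 1 else - ab m q z (r i))) ^ 2 *
            (gg y z (nz r) * ∏ i : P, (if r i = 0 then 1 else (Nat.totient (r i) : ℝ))) := by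
          unfold wb
          rw [mul_left_comm, ← Finset.prod_pow, ← Finset.prod_mul_distrib]
          congr 1
          refine Finset.prod_congr rfl fun i _ => ?_
          split_ifs <;> ring
        have e4 : (0 : ℝ) ≤ ∏ i : P, (if r i = 0 then 1 else (Nat.totient (r i) : ℝ)) := by
          refine Finset.prod_nonneg fun i _ => ?_
          split_ifs <;> positivity
        have e5 : gg y z (nz r + (if r j = 0 then 1 else 0)) ≤
            (om y z + (if r j = 0 then 0 else 1)) * gg y z (nz r) := by
          have e6 : nz r ≤ M / m := card_TB v1 hz2 hr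
          have e7 : M / m ≤ M := Nat.div_le_self _ _
          have e8 : E ≤ E ^ 2 := Nat.le_self_pow (by norm_num) E
          have e9 : 0 ≤ gg y z (nz r) := gg_nonneg (by omega)
          split_ifs with h0
          · rw [add_zero]
            exact gg_succ_le (by omega)
          · rw [add_zero, add_mul, one_mul]
            have := mul_nonneg hom0 e9
            linarith
        rw [e3]
        calc (∏ i : P, (if r i = 0 then 1 else - ab m q z (r i))) ^ 2 *
            (gg y z (nz r + (if r j = 0 then 1 else 0)) *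
              ∏ i : P, (if r i = 0 then 1 else (Nat.totient (r i) : ℝ)))
            ≤ (∏ i : P, (if r i = 0 then 1 else - ab m q z (r i))) ^ 2 *
            ((om y z + (if r j = 0 then 0 else 1)) * gg y z (nz r) *
              ∏ i : P, (if r i = 0 then 1 else (Nat.totient (r i) : ℝ))) :=
              mul_le_mul_of_nonneg_left (mul_le_mul_of_nonneg_right e5 e4) (sq_nonneg _)
          _ = _ := by ring
      have e10 : ∀ n, ((if Rg y z (n + (j : ℕ)) then (1 : ℝ) else 0) * WB m q M z y P n) ^ 2 =
          (if Rg y z (n + (j : ℕ)) then 1 else 0) * WB m q M z y P n ^ 2 := by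
        intro n
        split_ifs <;> ring
      simp only [e1, e10] at hres
      have e11 := (abs_le.1 hres).2
      have e12 := mul_le_mul_of_nonneg_left e2 hXI
      have e13 : Real.exp (-(c * E)) * om y z ^ ((∅ : Finset P).card + ({j} : Finset P).card) *
          XI (x / 32) x (QQ x) ≤ om y z * XI (x / 32) x (QQ x) := by
        rw [Finset.card_empty, Finset.card_singleton, zero_add, pow_one]
        apply mul_le_mul_of_nonneg_right _ hXI
        exact mul_le_of_le_one_left hom0 hex
      linarith
    · intro r hr i _ hiG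
      obtain ⟨s, hs, rfl⟩ := Finset.mem_image.1 hr
      rw [rr_ne (fun h => hiG (Finset.mem_singleton.2 h))]
      exact (mem_TB hs).1 i
    · intro r _ i hi
      exact absurd hi (Finset.notMem_empty i)
    · intro r hr i hi
      obtain ⟨s, hs, rfl⟩ := Finset.mem_image.1 hr
      rw [Finset.mem_singleton] at hi
      subst hi
      by_cases h0 : s i = 0
      · left
        exact rr_zero h0
      · right
        rw [rr_pos h0]
        exact ((mem_TB hs).1 i).resolve_left h0
    · intro r hr
      obtain ⟨s, hs, rfl⟩ := Finset.mem_image.1 hr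
      rw [nz_rr]
      have h1 : nz s ≤ M / m := card_TB v1 hz2 hs
      split_ifs <;> omega
    · intro r hr
      obtain ⟨s, hs, rfl⟩ := Finset.mem_image.1 hr
      rw [max_rr]
      exact (prod_TB hz2 hs).trans (Nat.pow_le_pow_right (by omega) (by omega))
    · intro r hr
      unfold co
      rw [Finset.abs_prod]
      refine Finset.prod_le_prod (fun i _ => abs_nonneg _) fun i _ => ?_
      rw [if_neg (Finset.notMem_empty i)]
      by_cases hij : i = j
      · rw [if_pos hij, if_pos (Finset.mem_singleton.2 hij)]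
        split_ifs
        · rw [abs_one]
        · rw [abs_neg, abs_of_nonneg (ab_nonneg _ _ _ _)]
      · rw [if_neg hij, if_neg (fun h => hij (Finset.mem_singleton.1 h))]
        split_ifs
        · rw [abs_one]
        · rw [abs_neg, abs_of_nonneg (ab_nonneg _ _ _ _)]
  -- the sum over the points
  have hcount : ∀ n, ((P.filter (fun h => Rg y z (n + h))).card : ℝ) =
      ∑ j : P, (if Rg y z (n + (j : ℕ)) then (1 : ℝ) else 0) := by
    intro n
    rw [Finset.card_filter, Nat.cast_sum,
      ← Finset.sum_coe_sort P (fun i => (((if Rg y z (n + i) then 1 else 0) : ℕ) : ℝ))]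
    refine Finset.sum_congr rfl fun j _ => ?_
    split_ifs <;> simp
  have hsum : ∑ n ∈ NI (x / 32) x (QQ x) b,
      Wt E z y P n ^ 2 * ((P.filter (fun h => Rg y z (n + h))).card : ℝ) =
      ∑ j : P, ∑ n ∈ NI (x / 32) x (QQ x) b,
        (if Rg y z (n + (j : ℕ)) then 1 else 0) * WB m q M z y P n ^ 2 := by
    rw [Finset.sum_comm]
    refine Finset.sum_congr rfl fun n _ => ?_
    rw [hcount n, Finset.mul_sum]
    refine Finset.sum_congr rfl fun j _ => ?_
    rw [mul_comm]
    rfl
  rw [hsum]
  have hnz : ∀ r : P → ℕ, ∑ j : P, (om y z + (if r j = 0 then (0 : ℝ) else 1)) =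
      P.card * om y z + nz r := by
    intro r
    rw [Finset.sum_add_distrib, Finset.sum_const, nsmul_eq_mul, Finset.card_univ,
      Fintype.card_coe]
    congr 1
    unfold nz
    rw [Finset.card_filter, Nat.cast_sum]
    refine Finset.sum_congr rfl fun j _ => ?_
    by_cases h0 : r j = 0
    · rw [if_pos h0, if_neg (fun h1 => h1 h0), Nat.cast_zero]
    · rw [if_neg h0, if_pos h0, Nat.cast_one]
  calc ∑ j : P, ∑ n ∈ NI (x / 32) x (QQ x) b,
        (if Rg y z (n + (j : ℕ)) then 1 else 0) * WB m q M z y P n ^ 2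
      ≤ ∑ j : P, (XI (x / 32) x (QQ x) * (∑ r ∈ TB m q M z P,
          (om y z + (if r j = 0 then 0 else 1)) * wb m q y z r) +
          om y z * XI (x / 32) x (QQ x)) := Finset.sum_le_sum fun j _ => key j
    _ = XI (x / 32) x (QQ x) * (∑ r ∈ TB m q M z P, (P.card * om y z + nz r) * wb m q y z r) +
          P.card * om y z * XI (x / 32) x (QQ x) := by
        rw [Finset.sum_add_distrib, ← Finset.mul_sum, Finset.sum_comm, Finset.sum_const,
          nsmul_eq_mul, Finset.card_univ, Fintype.card_coe]
        congr 1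
        · congr 1
          refine Finset.sum_congr rfl fun r _ => ?_
          rw [← Finset.sum_mul, hnz r]
        · ring
    _ ≤ XI (x / 32) x (QQ x) * ((P.card * om y z + E) * DB m q M z y P) +
          P.card * om y z * XI (x / 32) x (QQ x) := by
        have h1 : ∑ r ∈ TB m q M z P, (P.card * om y z + nz r) * wb m q y z r ≤
            (P.card * om y z + E) * DB m q M z y P := by
          unfold DB
          rw [Finset.mul_sum]
          refine Finset.sum_le_sum fun r hr => ?_
          apply mul_le_mul_of_nonneg_right _ (wb_nonneg hPy r)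
          have h2 : nz r ≤ M / m := card_TB v1 hz2 hr
          have h3 : M / m ≤ M := Nat.div_le_self _ _
          have h4 : nz r ≤ E := by omega
          have h5 : (nz r : ℝ) ≤ E := by exact_mod_cast h4
          linarith
        have h2 := mul_le_mul_of_nonneg_left h1 hXI
        linarith
    _ ≤ 2 * (XI (x / 32) x (QQ x) * DB m q M z y P) * (P.card * om y z + E) := by
        have h1 : 0 ≤ (P.card : ℝ) * om y z := by positivity
        have h2 : (0 : ℝ) ≤ E := Nat.cast_nonneg E
        have h3 : P.card * om y z * XI (x / 32) x (QQ x) ≤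
            XI (x / 32) x (QQ x) * ((P.card * om y z + E) * DB m q M z y P) := by
          calc P.card * om y z * XI (x / 32) x (QQ x)
              = XI (x / 32) x (QQ x) * (P.card * om y z * 1) := by ring
            _ ≤ XI (x / 32) x (QQ x) * ((P.card * om y z + E) * DB m q M z y P) := by
                apply mul_le_mul_of_nonneg_left _ hXI
                exact mul_le_mul (by linarith) hDB1 zero_le_one (by linarith)
        linarith

end Pool.Agent.Helper94.TU
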